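import Mathlib

/-!
# MP_36a07b_nt, Q1 and Q2: doubling congruences for the Thue-Morse twisted Fibonacci sequence (both true)

Let `A_k` be the product of the matrices `M (t_n) = (t_n 1; 1 0)` over `n < 2 ^ k`. The symmetries
`t_(2^k + n) = - t_n` and `t_(2^k - 1 - n) = (-1)^k t_n` give `A_(k+1) = D A_k D A_k` with
`D = diag(1, -1)`, and `A_k` transposed equals `A_k` for even `k` and `D A_k D` for odd `k`. Stepping
back a few terms from the index `2 ^ (k+1) - 1` one gets, with `A_k = (a b; c d)`,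
`h_(2(2^k - 3)) = (a - d) h_(2^k - 3)` for even `k` and
`h_(2(2^k - 3)) = - 2 - (a - d) h_(2^k - 3)` for odd `k`.
-/

set_option autoImplicit false

namespace Pool.Agent.Results.MP_36a07b_nt.Full

open Matrix

/-- the number of ones in the binary expansion of `n` -/
def s2 (n : ℕ) : ℕ := (Nat.digits 2 n).sum

/-- the Prouhet-Thue-Morse sequence in `±1` form -/
def t (n : ℕ) : ℤ := (-1) ^ s2 n

/-- the Thue-Morse twisted Fibonacci sequence -/
def h : ℕ → ℤ
  | 0 => 0
  | 1 => 1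
  | (n + 2) => t (n + 2) * h (n + 1) + h n

lemma t_zero : t 0 = 1 := by simp [t, s2]

lemma t_two_mul (n : ℕ) : t (2 * n) = t n := by
  rcases Nat.eq_zero_or_pos n with rfl | hn
  · rfl
  · have : Nat.digits 2 (2 * n) = 0 :: Nat.digits 2 n := by
      rw [Nat.digits_def' (by norm_num) (by omega)]
      congr 1
      · omega
      · congr 1
        omega
    simp [t, s2, this]

lemma t_two_mul_add_one (n : ℕ) : t (2 * n + 1) = - t n := by
  have : Nat.digits 2 (2 * n + 1) = 1 :: Nat.digits 2 n := by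
    rw [Nat.digits_def' (by norm_num) (by omega)]
    congr 1
    · omega
    · congr 1
      omega
  unfold t s2
  rw [this]
  simp [pow_add]

lemma t_sq (n : ℕ) : t n * t n = 1 := by
  unfold t
  rw [← pow_add, ← two_mul]
  simp [pow_mul]

lemma t_add_pow (k : ℕ) : ∀ n, n < 2 ^ k → t (2 ^ k + n) = - t n := by
  induction k with
  | zero =>
    intro n hn
    have : n = 0 := by omega
    subst this
    have := t_two_mul_add_one 0
    simpa using this
  | succ k ih =>
    intro n hn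
    obtain ⟨m, rfl | rfl⟩ := Nat.even_or_odd' n
    · have h1 : 2 ^ (k + 1) + 2 * m = 2 * (2 ^ k + m) := by ring
      rw [h1, t_two_mul, t_two_mul, ih m (by rw [pow_succ] at hn; omega)]
    · have h1 : 2 ^ (k + 1) + (2 * m + 1) = 2 * (2 ^ k + m) + 1 := by ring
      rw [h1, t_two_mul_add_one, t_two_mul_add_one, ih m (by rw [pow_succ] at hn; omega)]

lemma t_rev (k : ℕ) : ∀ n, n < 2 ^ k → t (2 ^ k - 1 - n) = (-1) ^ k * t n := by
  induction k with
  | zero =>
    intro n hn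
    have : n = 0 := by omega
    subst this
    simp
  | succ k ih =>
    intro n hn
    obtain ⟨m, rfl | rfl⟩ := Nat.even_or_odd' n
    · have hm : m < 2 ^ k := by rw [pow_succ] at hn; omega
      have h1 : 2 ^ (k + 1) - 1 - 2 * m = 2 * (2 ^ k - 1 - m) + 1 := by
        rw [pow_succ]; omega
      rw [h1, t_two_mul_add_one, t_two_mul, ih m hm, pow_succ]
      ring
    · have hm : m < 2 ^ k := by rw [pow_succ] at hn; omega
      have h1 : 2 ^ (k + 1) - 1 - (2 * m + 1) = 2 * (2 ^ k - 1 - m) := by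
        rw [pow_succ]; omega
      rw [h1, t_two_mul_add_one, t_two_mul, ih m hm, pow_succ]
      ring

/-- the transfer matrix -/
def M (x : ℤ) : Matrix (Fin 2) (Fin 2) ℤ := !![x, 1; 1, 0]

/-- the diagonal matrix with entries `1, -1` -/
def D : Matrix (Fin 2) (Fin 2) ℤ := !![1, 0; 0, -1]

/-- the product `M (f (n-1)) ⋯ M (f 0)` -/
def W (f : ℕ → ℤ) : ℕ → Matrix (Fin 2) (Fin 2) ℤ
  | 0 => 1
  | (n + 1) => M (f n) * W f n

lemma W_congr (f g : ℕ → ℤ) (n : ℕ) (hfg : ∀ i, i < n → f i = g i) : W f n = W g n := by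
  induction n with
  | zero => rfl
  | succ n ih =>
    rw [W, W, ih (fun i hi => hfg i (by omega)), hfg n (by omega)]

lemma W_add (f : ℕ → ℤ) (m n : ℕ) : W f (m + n) = W (fun i => f (m + i)) n * W f m := by
  induction n with
  | zero => simp [W]
  | succ n ih =>
    rw [← add_assoc, W, ih, W, Matrix.mul_assoc]

lemma D_sq : D * D = 1 := by
  ext i j
  fin_cases i <;> fin_cases j <;> simp [D, Matrix.mul_apply, Fin.sum_univ_two]

lemma M_neg (x : ℤ) : M (-x) = -(D * M x * D) := by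
  ext i j
  fin_cases i <;> fin_cases j <;> simp [D, M]

lemma W_neg (f : ℕ → ℤ) (n : ℕ) : W (fun i => - f i) n = (-1) ^ n • (D * W f n * D) := by
  induction n with
  | zero => simp [W, D_sq]
  | succ n ih =>
    rw [W, W, ih, M_neg]
    have : D * (M (f n) * W f n) * D = (D * M (f n) * D) * (D * W f n * D) := by
      calc D * (M (f n) * W f n) * D = D * M (f n) * 1 * W f n * D := by
            simp only [Matrix.mul_assoc, Matrix.one_mul]
        _ = D * M (f n) * (D * D) * W f n * D := by rw [D_sq]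
        _ = (D * M (f n) * D) * (D * W f n * D) := by simp only [Matrix.mul_assoc]
    rw [this, pow_succ, Matrix.neg_mul, Matrix.mul_smul, mul_neg_one, neg_smul]

lemma M_transpose (x : ℤ) : (M x)ᵀ = M x := by
  ext i j
  fin_cases i <;> fin_cases j <;> simp [M]

lemma W_succ' (f : ℕ → ℤ) (n : ℕ) : W f (n + 1) = W (fun i => f (i + 1)) n * M (f 0) := by
  have h1 := W_add f 1 n
  rw [add_comm 1 n] at h1
  rw [h1]
  congr 1
  · congr 1
    ext i
    rw [add_comm]
  · simp [W]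

lemma W_transpose (f : ℕ → ℤ) (n : ℕ) : (W f n)ᵀ = W (fun i => f (n - 1 - i)) n := by
  induction n with
  | zero => simp [W]
  | succ n ih =>
    rw [W, Matrix.transpose_mul, ih, M_transpose, W_succ']
    congr 1
    · apply W_congr
      intro i hi
      congr 1
      omega

lemma det_M (x : ℤ) : (M x).det = -1 := by
  simp [M, Matrix.det_fin_two]

lemma det_W (f : ℕ → ℤ) (n : ℕ) : (W f n).det = (-1) ^ n := by
  induction n with
  | zero => simp [W]
  | succ n ih => rw [W, Matrix.det_mul, ih, det_M, pow_succ]; ring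

lemma W_h (n : ℕ) : W t (n + 2) *ᵥ ![1, -1] = ![h (n + 1), h n] := by
  induction n with
  | zero =>
    have h1 : t 1 = -1 := by
      have := t_two_mul_add_one 0
      simpa [t_zero] using this
    simp only [W, t_zero, h1, zero_add, Matrix.mul_one, M]
    ext i
    fin_cases i <;> simp [h, Matrix.mulVec, dotProduct, Matrix.mul_apply, Fin.sum_univ_two]
  | succ n ih =>
    rw [W, ← Matrix.mulVec_mulVec, ih]
    ext i
    fin_cases i <;> simp [M, h, Matrix.mulVec, dotProduct, Fin.sum_univ_two]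

lemma W_block (k : ℕ) (hk : 1 ≤ k) : W t (2 ^ (k + 1)) = D * W t (2 ^ k) * D * W t (2 ^ k) := by
  have h1 : 2 ^ (k + 1) = 2 ^ k + 2 ^ k := by ring
  rw [h1, W_add]
  congr 1
  rw [W_congr (fun i => t (2 ^ k + i)) (fun i => - t i) (2 ^ k) (fun i hi => t_add_pow k i hi), W_neg]
  have h2 : (-1 : ℤ) ^ (2 ^ k) = 1 := by
    rw [Even.neg_one_pow]
    exact (Nat.even_pow.2 ⟨even_two, by omega⟩)
  rw [h2, one_smul]

lemma W_sym_even (k : ℕ) (hk : Even k) : (W t (2 ^ k))ᵀ = W t (2 ^ k) := by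
  rw [W_transpose]
  apply W_congr
  intro i hi
  rw [t_rev k i hi, hk.neg_one_pow, one_mul]

lemma W_sym_odd (k : ℕ) (hk : Odd k) : (W t (2 ^ k))ᵀ = D * W t (2 ^ k) * D := by
  rw [W_transpose]
  have h2 : (-1 : ℤ) ^ (2 ^ k) = 1 := by
    rw [Even.neg_one_pow]
    exact (Nat.even_pow.2 ⟨even_two, by rintro rfl; simp at hk⟩)
  have h3 := W_neg t (2 ^ k)
  rw [h2, one_smul] at h3
  rw [← h3]
  apply W_congr
  intro i hi
  rw [t_rev k i hi, hk.neg_one_pow]
  ring

lemma h_rec (n : ℕ) : h (n + 2) = t (n + 2) * h (n + 1) + h n := by rw [h]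

/-- the facts used in both parts: with `N = 2 ^ k = m + 6` and `A = (a b; c d)` -/
lemma main (k : ℕ) (hk : 2 ≤ k) :
    ∃ a b c d : ℤ, a * d - b * c = 1 ∧ (Even k → c = b) ∧ (Odd k → c = -b) ∧
      h (2 ^ k - 1) = a - b ∧ h (2 ^ k - 2) = c - d ∧
      h (2 ^ (k + 1) - 1) = a * (a - b) - b * (c - d) ∧
      h (2 ^ (k + 1) - 2) = - c * (a - b) + d * (c - d) := by
  have h4 : 4 ≤ 2 ^ k := by
    calc 4 = 2 ^ 2 := by norm_num
      _ ≤ 2 ^ k := Nat.pow_le_pow_right (by norm_num) hk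
  refine ⟨W t (2 ^ k) 0 0, W t (2 ^ k) 0 1, W t (2 ^ k) 1 0, W t (2 ^ k) 1 1, ?_, ?_, ?_, ?_⟩
  · have h1 := det_W t (2 ^ k)
    rw [Matrix.det_fin_two] at h1
    rw [h1, Even.neg_one_pow]
    exact (Nat.even_pow.2 ⟨even_two, by omega⟩)
  · intro he
    have h1 := W_sym_even k he
    have h2 := congrFun (congrFun h1 0) 1
    rw [Matrix.transpose_apply] at h2
    exact h2
  · intro ho
    have h1 := W_sym_odd k ho
    have h2 := congrFun (congrFun h1 0) 1
    rw [Matrix.transpose_apply] at h2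
    rw [h2]
    simp [D, Matrix.mul_apply, Matrix.vecMul, dotProduct, Fin.sum_univ_two]
  · have h1 := W_h (2 ^ k - 2)
    have e1 : 2 ^ k - 2 + 2 = 2 ^ k := by omega
    have e2 : 2 ^ k - 2 + 1 = 2 ^ k - 1 := by omega
    rw [e1, e2] at h1
    have h2 := W_h (2 ^ (k + 1) - 2)
    have h8 : 8 ≤ 2 ^ (k + 1) := by rw [pow_succ]; omega
    have e3 : 2 ^ (k + 1) - 2 + 2 = 2 ^ (k + 1) := by omega
    have e4 : 2 ^ (k + 1) - 2 + 1 = 2 ^ (k + 1) - 1 := by omega
    rw [e3, e4, W_block k (by omega)] at h2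
    have a1 := congrFun h1 0
    have a2 := congrFun h1 1
    have b1 := congrFun h2 0
    have b2 := congrFun h2 1
    simp only [Matrix.mulVec, dotProduct, Fin.sum_univ_two, D, Matrix.mul_apply, Matrix.cons_val_zero,
      Matrix.cons_val_one, Matrix.of_apply, Matrix.cons_val', Matrix.cons_val_fin_one] at a1 a2 b1 b2
    refine ⟨?_, ?_, ?_, ?_⟩
    · rw [← a1]; ring
    · rw [← a2]; ring
    · rw [← b1]; ring
    · rw [← b2]; ring

lemma t_val (k : ℕ) (hk : 3 ≤ k) : t (2 ^ k - 1) = (-1) ^ k ∧ t (2 ^ k - 2) = - (-1) ^ k ∧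
    t (2 ^ k - 3) = - (-1) ^ k ∧ t (2 ^ k - 4) = (-1) ^ k := by
  have h8 : 8 ≤ 2 ^ k := by
    calc 8 = 2 ^ 3 := by norm_num
      _ ≤ 2 ^ k := Nat.pow_le_pow_right (by norm_num) hk
  have t1 : t 1 = -1 := by
    have := t_two_mul_add_one 0
    simpa [t_zero] using this
  have t2 : t 2 = -1 := by
    have := t_two_mul 1
    rw [t1] at this
    simpa using this
  have t3 : t 3 = 1 := by
    have := t_two_mul_add_one 1
    rw [t1] at this
    simpa using this
  refine ⟨?_, ?_, ?_, ?_⟩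
  · have := t_rev k 0 (by omega)
    rw [t_zero] at this
    simpa using this
  · have := t_rev k 1 (by omega)
    rw [t1] at this
    rw [show 2 ^ k - 2 = 2 ^ k - 1 - 1 by omega, this]; ring
  · have := t_rev k 2 (by omega)
    rw [t2] at this
    rw [show 2 ^ k - 3 = 2 ^ k - 1 - 2 by omega, this]; ring
  · have := t_rev k 3 (by omega)
    rw [t3] at this
    rw [show 2 ^ k - 4 = 2 ^ k - 1 - 3 by omega, this]; ring

lemma back (n : ℕ) : h n = h (n + 2) - t (n + 2) * h (n + 1) := by rw [h_rec]; ring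

/-- Both questions: `h_(2^(2n) - 3)` divides `h_(2 (2^(2n) - 3))` for all `n ≥ 1`, and
`h_(2^k - 3)` divides `h_(2 (2^k - 3)) + 2` for all odd `k ≥ 3`. -/
theorem result :
    (∀ n : ℕ, 1 ≤ n → h (2 ^ (2 * n) - 3) ∣ h (2 * (2 ^ (2 * n) - 3))) ∧
    (∀ k : ℕ, 3 ≤ k → Odd k → h (2 ^ k - 3) ∣ h (2 * (2 ^ k - 3)) + 2) := by
  have key : ∀ k : ℕ, 2 ≤ k → ∃ a b c d : ℤ, a * d - b * c = 1 ∧ (Even k → c = b) ∧
      (Odd k → c = -b) ∧ h (2 ^ k - 3) = (a - b) - (-1) ^ k * (c - d) ∧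
      h (2 * (2 ^ k - 3)) =
        (-1) ^ k * (a * (a - b) - b * (c - d)) + (- c * (a - b) + d * (c - d)) := by
    intro k hk
    obtain ⟨a, b, c, d, hdet, he, ho, h1, h2, h3, h4⟩ := main k hk
    refine ⟨a, b, c, d, hdet, he, ho, ?_, ?_⟩
    · have hN : 4 ≤ 2 ^ k := by
        calc 4 = 2 ^ 2 := by norm_num
          _ ≤ 2 ^ k := Nat.pow_le_pow_right (by norm_num) hk
      have e := back (2 ^ k - 3)
      rw [show 2 ^ k - 3 + 2 = 2 ^ k - 1 by omega, show 2 ^ k - 3 + 1 = 2 ^ k - 2 by omega,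
        h1, h2] at e
      have t0 := t_rev k 0 (by omega)
      rw [t_zero] at t0
      rw [show 2 ^ k - 1 - 0 = 2 ^ k - 1 by omega] at t0
      rw [e, t0]
      ring
    · have hN : 8 ≤ 2 ^ (k + 1) := by
        calc 8 = 2 ^ 3 := by norm_num
          _ ≤ 2 ^ (k + 1) := Nat.pow_le_pow_right (by norm_num) (by omega)
      obtain ⟨t1, t2, t3, t4⟩ := t_val (k + 1) (by omega)
      have e1 := back (2 ^ (k + 1) - 3)
      have e2 := back (2 ^ (k + 1) - 4)
      have e3 := back (2 ^ (k + 1) - 5)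
      have e4 := back (2 ^ (k + 1) - 6)
      rw [show 2 ^ (k + 1) - 3 + 2 = 2 ^ (k + 1) - 1 by omega,
        show 2 ^ (k + 1) - 3 + 1 = 2 ^ (k + 1) - 2 by omega, h3, h4, t1] at e1
      rw [show 2 ^ (k + 1) - 4 + 2 = 2 ^ (k + 1) - 2 by omega,
        show 2 ^ (k + 1) - 4 + 1 = 2 ^ (k + 1) - 3 by omega, h4, t2, e1] at e2
      rw [show 2 ^ (k + 1) - 5 + 2 = 2 ^ (k + 1) - 3 by omega,
        show 2 ^ (k + 1) - 5 + 1 = 2 ^ (k + 1) - 4 by omega, t3, e1, e2] at e3
      rw [show 2 ^ (k + 1) - 6 + 2 = 2 ^ (k + 1) - 4 by omega,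
        show 2 ^ (k + 1) - 6 + 1 = 2 ^ (k + 1) - 5 by omega, t4, e2, e3] at e4
      have e5 : 2 * (2 ^ k - 3) = 2 ^ (k + 1) - 6 := by rw [pow_succ]; omega
      rw [e5, e4]
      rcases Nat.even_or_odd k with hk2 | hk2
      · rw [pow_succ, hk2.neg_one_pow]
        ring
      · rw [pow_succ, hk2.neg_one_pow]
        ring
  constructor
  · intro n hn
    obtain ⟨a, b, c, d, hdet, he, -, h1, h2⟩ := key (2 * n) (by omega)
    have hev : Even (2 * n) := even_two_mul n
    rw [h1, h2, he hev, hev.neg_one_pow]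
    exact ⟨a - d, by ring⟩
  · intro k hk hodd
    obtain ⟨a, b, c, d, hdet, -, ho, h1, h2⟩ := key k (by omega)
    rw [h1, h2, ho hodd, hodd.neg_one_pow]
    rw [ho hodd] at hdet
    refine ⟨-(a - d), ?_⟩
    linear_combination (-2) * hdet

end Pool.Agent.Results.MP_36a07b_nt.Full
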